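import Pool.Agent.GTO.StmtsA

/-! Squad GTO, row COL: columns. -/

namespace Pool.Agent.GTO.H62

open Finset Pool.Agent.GTO
open scoped Classical

theorem rot_inj {ι : Type} {d e : Dat ι} (h : rot d = rot e) : d = e := by
  obtain ⟨s, u, v, w, u', v', w'⟩ := d
  obtain ⟨t, x, y, z, x', y', z'⟩ := e
  simp only [rot, Dat.mk.injEq] at h ⊢
  tauto

theorem col (unq : UnqStmt) : ColStmt := by
  intro ι _ a ha
  obtain ⟨h1, -, h3, h4⟩ := unq ι a ha
  refine ⟨?_, ?_, ?_⟩
  · rintro d f f' ⟨fm, g, e, gm, h, k, -, hg, he, hf, -⟩ ⟨fm', g', e', gm', h', k', -, hg', he', hf', -⟩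
    have q1 := h3 d g g' hg hg'
    subst q1
    have q2 := h3 g e e' he he'
    rw [hf, hf', q2]
  · rintro d d' f ⟨fm, g, e, gm, h, k, -, hg, he, hf, -⟩ ⟨fm', g', e', gm', h', k', -, hg', he', hf', -⟩
    have q1 : e = e' := rot_inj (rot_inj (hf.symm.trans hf'))
    subst q1
    have q2 := h4 g g' e he he'
    subst q2
    exact h4 d d' g hg hg'
  · rintro d f ⟨fm, g, e, gm, h, k, -, hg, he, hf, -⟩
    refine ⟨hg.1, ?_, ?_⟩
    · rw [hf]
      exact h1 _ (h1 _ he.2.1)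
    · obtain ⟨-, -, -, a1, a2, a3, a4, a5⟩ := hg
      obtain ⟨-, -, -, b1, b2, b3, b4, b5⟩ := he
      rw [hf]
      refine ⟨?_, ?_, ?_, ?_⟩
      · change e.w = d.u
        rw [b3, a4]
      · change e.u = d.v'
        rw [b1, a3]
      · change e.w' = d.u'
        rw [b5, a2]
      · change e.v' = d.w
        rw [b4, a1]

end Pool.Agent.GTO.H62
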